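import Mathlib
import Pool.Agent.H19.Euler.Main

/-! Infinite log-concavity of the normalized rows of Euler's difference table. -/

set_option autoImplicit false

namespace Pool.Agent.Results.MP_93da98_co.InfLogConcave

/-- `e` is Euler's difference table: `e n n = n!` for all `n`, and
`e n (k-1) = e n k - e (n-1) (k-1)` for `1 ≤ k ≤ n`. -/
def IsEulerTable (e : ℕ → ℕ → ℤ) : Prop :=
  (∀ n : ℕ, e n n = (n.factorial : ℤ)) ∧
    ∀ n k : ℕ, 1 ≤ k → k ≤ n → e n (k - 1) = e n k - e (n - 1) (k - 1)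

/-- The operator which sends a sequence `a` to the sequence `a_k ^ 2 - a_(k-1) * a_(k+1)`. Its
`l`-th iterate is only read at indices `k` with `l ≤ k ≤ n - l`, where it depends only on the
entries of `a` at indices from `k - l` to `k + l`. -/
def opL (a : ℕ → ℝ) : ℕ → ℝ := fun k => a k ^ 2 - a (k - 1) * a (k + 1)

/-- The normalized row: its entry at `k` is `e n k / k!`. -/
noncomputable def dSeq (e : ℕ → ℕ → ℤ) (n : ℕ) : ℕ → ℝ :=
  fun k => (e n k : ℝ) / (k.factorial : ℝ)

/-- auxiliary table: `tab n m` is the entry `e n (n-m)` -/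
def tab : ℕ → ℕ → ℤ
  | n, 0 => (n.factorial : ℤ)
  | n, m + 1 => tab n m - tab (n - 1) m

theorem exists_table : ∃ e : ℕ → ℕ → ℤ, IsEulerTable e := by
  refine ⟨fun n k => tab n (n - k), ?_, ?_⟩
  · intro n
    show tab n (n - n) = _
    rw [Nat.sub_self]
    rfl
  · intro n k h1 h2
    show tab n (n - (k - 1)) = tab n (n - k) - tab (n - 1) (n - 1 - (k - 1))
    have e1 : n - (k - 1) = (n - k) + 1 := by omega
    have e2 : n - 1 - (k - 1) = n - k := by omega
    rw [e1, e2]
    rfl

/-- Every row of the normalized Euler difference table is infinitely log-concave: for `l ≥ 1` and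
`l ≤ k ≤ n - l` the `k`-th entry of the `l`-th iterate is nonnegative, and it is positive as soon
as `n ≥ 3`. -/
theorem result :
    (∃ e : ℕ → ℕ → ℤ, IsEulerTable e) ∧
    ∀ e : ℕ → ℕ → ℤ, IsEulerTable e → ∀ n l k : ℕ, 1 ≤ l → l ≤ k → k + l ≤ n →
      0 ≤ (opL^[l] (dSeq e n)) k ∧ (3 ≤ n → 0 < (opL^[l] (dSeq e n)) k) := by
  refine ⟨exists_table, ?_⟩
  intro e he n l k hl hlk hkl
  have he' : Pool.Agent.H19.Euler.IsEuler e := ⟨he.1, he.2⟩
  have key : 3 ≤ n → 0 < (opL^[l] (dSeq e n)) k := fun h3 =>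
    Pool.Agent.H19.Euler.levels_pos he' n h3 l k hlk hkl
  refine ⟨?_, key⟩
  by_cases h3 : 3 ≤ n
  · exact (key h3).le
  · have hn : n = 2 := by omega
    have hl1 : l = 1 := by omega
    have hk1 : k = 1 := by omega
    subst hn; subst hl1; subst hk1
    have d0 := he.1 0
    have d1 := he.1 1
    have d2 := he.1 2
    have a1 := he.2 1 1 le_rfl le_rfl
    have a2 := he.2 2 2 (by norm_num) le_rfl
    have a3 := he.2 2 1 le_rfl (by norm_num)
    simp only [Nat.sub_self, Nat.factorial] at d0 d1 d2 a1 a2 a3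
    norm_num at d0 d1 d2 a1 a2 a3
    have e0 : e 2 0 = 1 := by omega
    have e1 : e 2 1 = 1 := by omega
    have e2 : e 2 2 = 2 := by omega
    have hval : (opL^[1] (dSeq e 2)) 1 = 0 := by
      show opL (dSeq e 2) 1 = 0
      unfold opL dSeq
      norm_num [e0, e1, e2, Nat.factorial]
    rw [hval]

end Pool.Agent.Results.MP_93da98_co.InfLogConcave
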